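import Pool.Agent.Y34.RA.Stm

set_option autoImplicit false

namespace Pool.Agent.Y34.RA

open Pool.Agent.Results.MP_a52033_al.Existence

universe u

theorem rank_ex (F ι κ : Type u) [Field F] [Fintype κ] :
    Module.rank F (Ex F ι κ) = Cardinal.mk ι + (Cardinal.mk ι + (1 + Cardinal.mk κ)) := by
  let e : Ex F ι κ ≃ₗ[F] (ι →₀ F) × (ι →₀ F) × F × (κ → F) :=
    { (Ex.equivProd F ι κ) with
      map_add' := fun _ _ => rfl
      map_smul' := fun _ _ => rfl }
  rw [e.rank_eq, rank_prod', rank_prod', rank_prod', rank_finsupp_self', Module.rank_self, rank_fun' (η := κ),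
    Cardinal.mk_fintype κ]

theorem t_rank : S_RANK.{u} := by
  intro F _ c hc
  rcases lt_or_ge c Cardinal.aleph0 with h | h
  · obtain ⟨n, rfl⟩ := Cardinal.lt_aleph0.1 h
    have hn : 3 ≤ n := by exact_mod_cast hc
    obtain ⟨k, rfl | rfl⟩ : ∃ k, n = 2 * k + 1 ∨ n = 2 * k + 2 := ⟨(n - 1) / 2, by omega⟩
    · refine ⟨ULift (Fin k), PEmpty, inferInstance, ⟨⟨⟨0, by omega⟩⟩⟩, inferInstance, ?_⟩
      rw [rank_ex]
      simp
      ring
    · refine ⟨ULift (Fin k), PUnit, inferInstance, ⟨⟨⟨0, by omega⟩⟩⟩, inferInstance, ?_⟩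
      rw [rank_ex]
      simp
      ring
  · refine ⟨c.out, PEmpty, inferInstance, ?_, inferInstance, ?_⟩
    · rw [← Cardinal.mk_ne_zero_iff, Cardinal.mk_out]
      intro h0
      rw [h0] at h
      exact absurd h (not_le.2 Cardinal.aleph0_pos)
    · rw [rank_ex, Cardinal.mk_out]
      have h1 : (1 : Cardinal.{u}) + Cardinal.mk PEmpty.{u + 1} = 1 := by simp
      rw [h1, Cardinal.add_one_eq h, Cardinal.add_eq_self h]

end Pool.Agent.Y34.RA
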