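import Pool.Agent.Y34.RA.Stm

set_option autoImplicit false

namespace Pool.Agent.Y34.RA

open Pool.Agent.Results.MP_a52033_al.Existence

universe u

open Ex in
theorem t_simple : S_SIMPLE.{u} := by
  intro F ι κ _ _ _ _
  classical
  obtain ⟨i₀⟩ := ‹Nonempty ι›
  set U : Ex F ι κ := ⟨0, 0, 1, 0⟩ with hU
  refine ⟨⟨U, U, ?_⟩, ?_⟩
  · intro h
    have := congrArg Ex.c h
    simp [mul_c, hU] at this
  intro I hI
  -- step 1
  have key : U ∈ I → I = ⊤ := by
    intro hUI
    have h1 : ∀ a : ι →₀ F, (⟨a, 0, 0, 0⟩ : Ex F ι κ) ∈ I := by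
      intro a
      have := (hI U hUI ⟨a, 0, 0, 0⟩).1
      have e : (⟨a, 0, 0, 0⟩ : Ex F ι κ) * U = ⟨a, 0, 0, 0⟩ := by
        refine ext' ?_ ?_ ?_ ?_ <;> simp [mul_a, mul_w, mul_c, mul_s, hU]
      rwa [e] at this
    have h4 : ∀ s : κ → F, (⟨0, 0, 0, s⟩ : Ex F ι κ) ∈ I := by
      intro s
      have := (hI U hUI ⟨0, 0, 0, s⟩).1
      have e : (⟨0, 0, 0, s⟩ : Ex F ι κ) * U = ⟨0, 0, 0, s⟩ := by
        refine ext' ?_ ?_ ?_ ?_ <;> simp [mul_a, mul_w, mul_c, mul_s, hU]
      rwa [e] at this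
    have h2 : ∀ w : ι →₀ F, (⟨0, w, 0, 0⟩ : Ex F ι κ) ∈ I := by
      intro w
      induction w using Finsupp.induction_linear with
      | zero => exact I.zero_mem
      | add f g hf hg =>
        have := I.add_mem hf hg
        have e : (⟨0, f, 0, 0⟩ : Ex F ι κ) + ⟨0, g, 0, 0⟩ = ⟨0, f + g, 0, 0⟩ := by
          refine ext' ?_ ?_ ?_ ?_ <;> simp
        rwa [e] at this
      | single i r =>
        have := I.smul_mem r (hI _ (h1 (Finsupp.single i 1)) ⟨Finsupp.single i 1, 0, 0, 0⟩).1
        have e : r • ((⟨Finsupp.single i 1, 0, 0, 0⟩ : Ex F ι κ) * ⟨Finsupp.single i 1, 0, 0, 0⟩) =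
            ⟨0, Finsupp.single i r, 0, 0⟩ := by
          refine ext' ?_ ?_ ?_ ?_
          · simp [mul_a]
          · ext j
            simp only [smul_w, mul_w, Finsupp.smul_apply, Finsupp.add_apply, Finsupp.mul_apply]
            by_cases hj : i = j
            · subst hj; simp
            · simp [Finsupp.single_apply, hj]
          · simp [mul_c]
          · simp [mul_s]
        rwa [e] at this
    rw [eq_top_iff]
    intro v _
    have e : v = ⟨v.a, 0, 0, 0⟩ + ⟨0, v.w, 0, 0⟩ + v.c • U + ⟨0, 0, 0, v.s⟩ := by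
      refine ext' ?_ ?_ ?_ ?_ <;> simp [hU]
    rw [e]
    exact I.add_mem (I.add_mem (I.add_mem (h1 _) (h2 _)) (I.smul_mem _ hUI)) (h4 _)
  -- nonzero first component
  have key1 : ∀ v ∈ I, v.a ≠ 0 → I = ⊤ := by
    intro v hv ha
    obtain ⟨i, hi⟩ := Finsupp.ne_iff.1 ha
    simp only [Finsupp.coe_zero, Pi.zero_apply] at hi
    apply key
    have := I.smul_mem (v.a i)⁻¹ (hI v hv ⟨0, Finsupp.single i 1, 0, 0⟩).2
    have hp : pair v.a (Finsupp.single i 1) = v.a i := by
      unfold pair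
      have : v.a * Finsupp.single i 1 = Finsupp.single i (v.a i) := by
        ext j
        simp only [Finsupp.mul_apply]
        by_cases hj : i = j
        · subst hj; simp
        · simp [Finsupp.single_apply, hj]
      rw [this, Finsupp.sum_single_index rfl]
    have e : (v.a i)⁻¹ • (v * (⟨0, Finsupp.single i 1, 0, 0⟩ : Ex F ι κ)) = U := by
      refine ext' ?_ ?_ ?_ ?_
      · simp [mul_a, hU]
      · simp [mul_w, hU]
      · simp [mul_c, hU, hp, hi]
      · simp [mul_s, hU]
    rwa [e] at this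
  have key2 : ∀ v ∈ I, v.a = 0 → v.w ≠ 0 → I = ⊤ := by
    intro v hv ha hw
    obtain ⟨i, hi⟩ := Finsupp.ne_iff.1 hw
    simp only [Finsupp.coe_zero, Pi.zero_apply] at hi
    apply key
    have := I.smul_mem (v.w i)⁻¹ (hI v hv ⟨Finsupp.single i 1, 0, 0, 0⟩).2
    have hp : pair v.w (Finsupp.single i 1) = v.w i := by
      unfold pair
      have : v.w * Finsupp.single i 1 = Finsupp.single i (v.w i) := by
        ext j
        simp only [Finsupp.mul_apply]
        by_cases hj : i = j
        · subst hj; simp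
        · simp [Finsupp.single_apply, hj]
      rw [this, Finsupp.sum_single_index rfl]
    have e : (v.w i)⁻¹ • (v * (⟨Finsupp.single i 1, 0, 0, 0⟩ : Ex F ι κ)) = U := by
      refine ext' ?_ ?_ ?_ ?_
      · simp [mul_a, hU]
      · simp [mul_w, hU, ha]
      · simp [mul_c, hU, hp, hi]
      · simp [mul_s, hU]
    rwa [e] at this
  by_cases hb : I = ⊥
  · exact Or.inl hb
  right
  obtain ⟨v, hv, hv0⟩ := I.ne_bot_iff.mp hb
  by_cases ha : v.a = 0
  swap
  · exact key1 v hv ha
  by_cases hw : v.w = 0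
  swap
  · exact key2 v hv ha hw
  have hl := (hI v hv ⟨Finsupp.single i₀ 1, 0, 0, 0⟩).1
  by_cases hc : v.c = 0
  swap
  · refine key1 _ hl ?_
    rw [mul_a]
    intro h
    have := congrArg (fun f : ι →₀ F => f i₀) h
    simp at this
    exact hc this
  · refine key2 _ hl ?_ ?_
    · rw [mul_a, hc, zero_smul]
    · rw [mul_w, ha, mul_zero, zero_add]
      have hs : v.s ≠ 0 := by
        intro hs
        exact hv0 (ext' ha hw hc hs)
      obtain ⟨k, hk⟩ := Function.ne_iff.1 hs
      have hsum : (∑ k, v.s k) = v.s k := by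
        apply Fintype.sum_subsingleton
      intro h
      have := congrArg (fun f : ι →₀ F => f i₀) h
      rw [hsum] at this
      simp at this
      exact hk this

end Pool.Agent.Y34.RA
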