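import Pool.Agent.Y34.RA.Lie

set_option autoImplicit false

namespace Pool.Agent.Y34.RA

open Pool.Agent.Results.MP_a52033_al.Existence

universe u v

section
variable {F : Type u} {A : Type v} [Field F] [CharP F 2] [NonUnitalNonAssocRing A]
  [Module F A] [IsScalarTower F A A] [SMulCommClass F A A]

theorem left_of_comm (h : RightAlternative A) (hc : ∀ x y : A, x * y = y * x) :
    LeftAlternative A := by
  intro x y
  rw [hc (x * x) y, ← h y x, hc y x, hc (x * y) x]

omit [CharP F 2] in
theorem ker_zero (hs : IsSimpleAlg' F A) (h : RightAlternative A) :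
    ∀ y : A, (∀ x, x * y = 0) → y = 0 := by
  let K : Submodule F A :=
    { carrier := {y | ∀ x, x * y = 0}
      add_mem' := fun {a b} ha hb x => by rw [mul_add, ha x, hb x, add_zero]
      zero_mem' := fun x => mul_zero x
      smul_mem' := fun c a ha x => by rw [mul_smul_comm, ha x, smul_zero] }
  have hK : ∀ x ∈ K, ∀ a : A, a * x ∈ K ∧ x * a ∈ K := by
    intro y hy a
    refine ⟨?_, fun x => ?_⟩
    · rw [show a * y = 0 from hy a]; exact K.zero_mem
    · have h1 := lin h x y a
      rw [show a * y = 0 from hy a, show x * y = 0 from hy x, show x * a * y = 0 from hy (x * a),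
        zero_mul, mul_zero, add_zero, add_zero] at h1
      exact h1.symm
  intro y hy
  rcases hs.2 K hK with h0 | h0
  · have : y ∈ K := hy
    rw [h0] at this
    exact (Submodule.mem_bot F).1 this
  · exfalso
    obtain ⟨a, b, hab⟩ := hs.1
    have : b ∈ K := by rw [h0]; trivial
    exact hab (this a)

omit [CharP F 2] [IsScalarTower F A A] [SMulCommClass F A A] in
theorem line_ideal [Module.Finite F A] (hs : IsSimpleAlg' F A) (h2 : Module.finrank F A = 2)
    (f : A) (hf : f ≠ 0)
    (hl : ∀ z : A, ∃ c : F, z * f = c • f) (hr : ∀ z : A, ∃ c : F, f * z = c • f)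
    (hsm : ∀ (c : F) (x y : A), (c • x) * y = c • (x * y))
    (hsm' : ∀ (c : F) (x y : A), x * (c • y) = c • (x * y)) : False := by
  have hI : ∀ x ∈ Submodule.span F {f}, ∀ a : A,
      a * x ∈ Submodule.span F {f} ∧ x * a ∈ Submodule.span F {f} := by
    intro x hx a
    obtain ⟨c, rfl⟩ := Submodule.mem_span_singleton.1 hx
    obtain ⟨c1, h1⟩ := hl a
    obtain ⟨c2, h2⟩ := hr a
    rw [hsm, hsm', h1, h2]
    exact ⟨Submodule.smul_mem _ _ (Submodule.smul_mem _ _ (Submodule.mem_span_singleton_self f)),
      Submodule.smul_mem _ _ (Submodule.smul_mem _ _ (Submodule.mem_span_singleton_self f))⟩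
  rcases hs.2 _ hI with h0 | h0
  · exact hf (Submodule.span_singleton_eq_bot.1 h0)
  · have h3 := finrank_span_singleton (K := F) hf
    rw [h0, finrank_top, h2] at h3
    omega

omit [CharP F 2] [IsScalarTower F A A] [SMulCommClass F A A] in
theorem coords [Module.Finite F A] (h2 : Module.finrank F A = 2) (e f : A)
    (hli : LinearIndependent F ![e, f]) (z : A) : ∃ a b : F, z = a • e + b • f := by
  have ht := hli.span_eq_top_of_card_eq_finrank (by simp [h2])
  have hz : z ∈ Submodule.span F (Set.range ![e, f]) := by rw [ht]; trivial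
  rw [Matrix.range_cons, Matrix.range_cons, Matrix.range_empty, Set.union_empty,
    Set.singleton_union, Submodule.mem_span_pair] at hz
  obtain ⟨a, b, hab⟩ := hz
  exact ⟨a, b, hab.symm⟩

theorem small_two [Module.Finite F A] (hs : IsSimpleAlg' F A) (h : RightAlternative A)
    (hd : Module.finrank F A = 2) : LeftAlternative A := by
  have h2F : (2 : F) = 0 := CharTwo.two_eq_zero
  have h2 : ∀ x : A, x + x = 0 := fun x => two_zero (F := F) x
  have hK := ker_zero hs h
  have hsm : ∀ (c : F) (x y : A), (c • x) * y = c • (x * y) := smul_mul_assoc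
  have hsm' : ∀ (c : F) (x y : A), x * (c • y) = c • (x * y) := fun c x y => mul_smul_comm c x y
  have hcomm : (∀ x y : A, x * y + y * x = 0) → LeftAlternative A := by
    intro hc
    refine left_of_comm h fun x y => ?_
    have h1 := hc x y
    have h3 := h2 (y * x)
    exact add_right_cancel (h1.trans h3.symm)
  by_cases hII : ∃ y : A, LinearIndependent F ![y, y * y]
  · obtain ⟨y, hy⟩ := hII
    apply hcomm
    -- all right multiplications commute
    have hR : ∀ z x : A, ∃ a b : F, ∀ w : A, w * z = a • (w * y) + b • ((w * y) * y) := by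
      intro z _
      obtain ⟨a, b, rfl⟩ := coords hd y (y * y) hy z
      refine ⟨a, b, fun w => ?_⟩
      rw [mul_add, hsm', hsm', h w y]
    intro p q
    apply hK
    intro w
    rw [mul_add, ← lin h w p q]
    obtain ⟨a, b, hp⟩ := hR p 0
    obtain ⟨c, d, hq⟩ := hR q 0
    have e : (w * p) * q = (w * q) * p := by
      rw [hq (w * p), hp (w * q), hp w, hq w]
      simp only [add_mul, hsm, smul_add]
      simp only [smul_smul, mul_comm c a, mul_comm c b, mul_comm d a, mul_comm d b]
      abel
    rw [e]
    exact h2 _
  · push Not at hII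
    have hsq : ∀ y : A, ∃ l : F, y * y = l • y := by
      intro y
      by_cases hy : y = 0
      · exact ⟨0, by rw [hy]; simp⟩
      have h3 := hII y
      rw [LinearIndependent.pair_iff] at h3
      push Not at h3
      obtain ⟨s, t, h4, h5⟩ := h3
      by_cases ht : t = 0
      · rw [ht, zero_smul, add_zero] at h4
        rcases smul_eq_zero.1 h4 with h6 | h6
        · exact absurd ht (h5 h6)
        · exact absurd h6 hy
      · refine ⟨-(t⁻¹ * s), ?_⟩
        have h6 : t • (y * y) = -(s • y) := eq_neg_of_add_eq_zero_right h4
        rw [← one_smul F (y * y), ← inv_mul_cancel₀ ht, mul_smul, h6, smul_neg, smul_smul, neg_smul]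
    by_cases hz : ∀ y : A, y * y = 0
    · apply hcomm
      intro x y
      have h3 := hz (x + y)
      rw [mul_add, add_mul, add_mul, hz x, hz y, zero_add, add_zero, add_comm] at h3
      exact h3
    push Not at hz
    obtain ⟨y, hy⟩ := hz
    obtain ⟨l, hl⟩ := hsq y
    have hl0 : l ≠ 0 := by
      rintro rfl
      exact hy (by rw [hl, zero_smul])
    obtain ⟨e, hee, he0⟩ : ∃ e : A, e * e = e ∧ e ≠ 0 := by
      refine ⟨l⁻¹ • y, ?_, ?_⟩
      · rw [hsm, hsm', hl, smul_smul l⁻¹ l, inv_mul_cancel₀ hl0, one_smul]
      · intro h0
        have : y = 0 := by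
          rcases smul_eq_zero.1 h0 with h6 | h6
          · exact absurd h6 (inv_ne_zero hl0)
          · exact h6
        exact hy (by rw [this]; simp)
    by_cases hker : ∃ f : A, f ≠ 0 ∧ f * e = 0
    · -- case 4a
      obtain ⟨f, hf0, hfe⟩ := hker
      have hli : LinearIndependent F ![e, f] := by
        rw [LinearIndependent.pair_iff]
        intro s t hst
        have h3 : (s • e + t • f) * e = 0 := by rw [hst, zero_mul]
        rw [add_mul, hsm, hsm, hee, hfe, smul_zero, add_zero] at h3
        have hs0 : s = 0 := (smul_eq_zero.1 h3).resolve_right he0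
        rw [hs0, zero_smul, zero_add] at hst
        exact ⟨hs0, (smul_eq_zero.1 hst).resolve_right hf0⟩
      have huniq : ∀ a b c d : F, a • e + b • f = c • e + d • f → a = c ∧ b = d := by
        intro a b c d habcd
        have h3 : (a - c) • e + (b - d) • f = 0 := by
          rw [sub_smul, sub_smul, ← sub_eq_zero.2 habcd]; abel
        obtain ⟨h4, h5⟩ := (LinearIndependent.pair_iff.1 hli) _ _ h3
        exact ⟨sub_eq_zero.1 h4, sub_eq_zero.1 h5⟩
      obtain ⟨β, hff⟩ := hsq f
      obtain ⟨p, q, hef⟩ := coords hd e f hli (e * f)
      -- relations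
      have r1 := lin h e e f
      have r2 := lin h f e f
      have r3 := h e f
      rw [hee, hfe, mul_zero, add_zero, hef] at r1
      rw [hfe, hff, zero_mul, mul_zero, hef] at r2
      rw [hff, hef] at r3
      simp only [mul_add, add_mul, hsm, hsm', hee, hfe, hff, hef, smul_zero, add_zero, zero_add,
        smul_smul] at r1 r2 r3
      have r1' : (p + p) • e + q • f = (p + q * p) • e + (q * q) • f := by
        rw [add_smul, add_smul, ← sub_eq_zero] 
        rw [← sub_eq_zero] at r1
        rw [← r1]
        simp only [smul_add, smul_smul]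
        abel
      have r2' : (0 : F) • e + (0 : F) • f = (0 : F) • e + (q * β) • f := by
        rw [zero_smul, zero_smul, zero_add, zero_add, ← r2]
      have r3' : (p * p) • e + (p * q + q * β) • f = (β * p) • e + (β * q) • f := by
        rw [add_smul, ← sub_eq_zero]
        rw [← sub_eq_zero] at r3
        rw [← r3]
        simp only [smul_add, smul_smul]
        abel
      obtain ⟨u1, u2⟩ := huniq _ _ _ _ r1'
      obtain ⟨-, u3⟩ := huniq _ _ _ _ r2'
      obtain ⟨u4, u5⟩ := huniq _ _ _ _ r3'
      exfalso
      have hpq : p * q = 0 := by linear_combination u5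
      have hp : p = 0 := by linear_combination (-1 : F) * u1 + p * h2F - hpq
      rw [hp, zero_smul, zero_add] at hef
      refine line_ideal hs hd f hf0 ?_ ?_ hsm hsm'
      · intro z
        obtain ⟨a, b, rfl⟩ := coords hd e f hli z
        exact ⟨a * q + b * β, by rw [add_mul, hsm, hsm, hef, hff, smul_smul, smul_smul, add_smul]⟩
      · intro z
        obtain ⟨a, b, rfl⟩ := coords hd e f hli z
        exact ⟨b * β, by rw [mul_add, hsm', hsm', hfe, hff, smul_zero, zero_add, smul_smul]⟩
    · -- case 4b
      push Not at hker
      have hun : ∀ z : A, z * e = z := by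
        intro z
        by_contra hne
        have h3 : z * e - z ≠ 0 := sub_ne_zero.2 hne
        apply hker _ h3
        rw [sub_mul, h z e, hee, sub_self]
      obtain ⟨f, hli⟩ : ∃ f : A, LinearIndependent F ![e, f] := by
        by_contra hno
        push Not at hno
        have h3 : ∀ f : A, ∃ c : F, c • e = f := by
          intro f
          have h4 := hno f
          rw [LinearIndependent.pair_iff] at h4
          push Not at h4
          obtain ⟨s, t, h5, h6⟩ := h4
          by_cases ht : t = 0
          · rw [ht, zero_smul, add_zero] at h5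
            rcases smul_eq_zero.1 h5 with h7 | h7
            · exact absurd ht (h6 h7)
            · exact absurd h7 he0
          · refine ⟨-(t⁻¹ * s), ?_⟩
            have h7 : t • f = -(s • e) := eq_neg_of_add_eq_zero_right h5
            rw [← one_smul F f, ← inv_mul_cancel₀ ht, mul_smul, h7, smul_neg, smul_smul, neg_smul]
        have h4 := finrank_eq_one e he0 h3
        omega
      have hf0 : f ≠ 0 := by
        rintro rfl
        have := (LinearIndependent.pair_iff.1 hli) 0 1 (by simp)
        exact one_ne_zero this.2
      have huniq : ∀ a b c d : F, a • e + b • f = c • e + d • f → a = c ∧ b = d := by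
        intro a b c d habcd
        have h3 : (a - c) • e + (b - d) • f = 0 := by
          rw [sub_smul, sub_smul, ← sub_eq_zero.2 habcd]; abel
        obtain ⟨h4, h5⟩ := (LinearIndependent.pair_iff.1 hli) _ _ h3
        exact ⟨sub_eq_zero.1 h4, sub_eq_zero.1 h5⟩
      obtain ⟨β, hff⟩ := hsq f
      obtain ⟨p, q, hef⟩ := coords hd e f hli (e * f)
      have hfe := hun f
      have r1 := lin h e e f
      have r2 := lin h f e f
      rw [hee, hun, hfe, hef] at r1
      rw [hfe, hun, hff, hef] at r2
      simp only [mul_add, add_mul, hsm, hsm', hee, hfe, hff, hef, smul_smul] at r1 r2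
      have r1' : (p + p) • e + (q + q) • f = (p + q * p + p) • e + (q * q + q) • f := by
        rw [← sub_eq_zero] at r1 ⊢
        rw [← r1]
        simp only [smul_add, smul_smul, add_smul]
        abel
      have r2' : (0 : F) • e + (β + β) • f = (0 : F) • e + (p + q * β + β) • f := by
        rw [← sub_eq_zero] at r2 ⊢
        rw [← r2]
        simp only [smul_add, smul_smul, add_smul, zero_smul]
        abel
      obtain ⟨u1, u2⟩ := huniq _ _ _ _ r1'
      obtain ⟨-, u3⟩ := huniq _ _ _ _ r2'
      have hpq : q * p = 0 := by linear_combination -u1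
      have hqq : q * (q + 1) = 0 := by linear_combination -u2 + q * h2F
      have hp : p = (q + 1) * β := by linear_combination -u3 - q * β * h2F
      rcases mul_eq_zero.1 hqq with hq | hq
      · exfalso
        rw [hq, zero_add, one_mul] at hp
        rw [hq, hp, zero_smul, add_zero] at hef
        have hg : f + β • e = 0 := by
          apply hK
          intro z
          obtain ⟨a, b, rfl⟩ := coords hd e f hli z
          simp only [mul_add, add_mul, hsm, hsm', hee, hfe, hff, hef, smul_smul]
          have e3 : ∀ v w : A, v = w → v + w = 0 := fun v w hvw => by rw [hvw]; exact h2 w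
          first
            | (rw [show (2 : F) = 0 from h2F] at *; module)
            | (refine (e3 ((a * β) • e + (b * β) • f) ((a * β) • e + (b * β) • f) rfl).symm ▸ ?_
               module)
        have := (LinearIndependent.pair_iff.1 hli) β 1 (by rw [one_smul, add_comm]; exact hg)
        exact one_ne_zero this.2
      · apply hcomm
        have hq1 : q = 1 := by linear_combination hq - h2F
        rw [hq1] at hp hef
        have hp0 : p = 0 := by linear_combination hp + β * h2F
        rw [hp0, zero_smul, zero_add, one_smul] at hef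
        intro x z
        obtain ⟨a, b, rfl⟩ := coords hd e f hli x
        obtain ⟨c, d, rfl⟩ := coords hd e f hli z
        have hxz : (a • e + b • f) * (c • e + d • f) = (c • e + d • f) * (a • e + b • f) := by
          simp only [mul_add, add_mul, hsm, hsm', hee, hfe, hff, hef, smul_smul]
          module
        rw [hxz]
        exact h2 _

end

theorem t_small : S_SMALL.{u, v} := by
  intro F A _ _ _ _ _ _ hfin hd hs h
  rcases Nat.lt_or_ge (Module.finrank F A) 2 with h1 | h1
  · have h1' : Module.finrank F A ≤ 1 := by omega
    refine left_of_comm h ?_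
    rw [finrank_le_one_iff] at h1'
    obtain ⟨v, hv⟩ := h1'
    intro x y
    obtain ⟨a, rfl⟩ := hv x
    obtain ⟨b, rfl⟩ := hv y
    rw [smul_mul_assoc, mul_smul_comm, smul_mul_assoc, mul_smul_comm, smul_comm]
  · exact small_two hs h (le_antisymm hd h1)

end Pool.Agent.Y34.RA
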