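import Pool.Agent.Y34.RA.Stm

set_option autoImplicit false

namespace Pool.Agent.Y34.RA

open Pool.Agent.Results.MP_a52033_al
open Pool.Agent.Results.MP_a52033_al.Existence

universe u v

theorem two_zero {F : Type u} {A : Type v} [Field F] [CharP F 2] [AddCommGroup A] [Module F A]
    (x : A) : x + x = 0 := by
  have h : (2 : F) = 0 := CharTwo.two_eq_zero
  rw [← two_smul F x, h, zero_smul]

section
variable {A : Type v} [NonUnitalNonAssocRing A]

theorem lin (h : RightAlternative A) (x y z : A) :
    (x * y) * z + (x * z) * y = x * (y * z) + x * (z * y) := by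
  have h1 := h x (y + z)
  have h2 := h x y
  have h3 := h x z
  simp only [mul_add, add_mul] at h1
  rw [h2, h3] at h1
  have h4 : x * (y * y) + (x * z) * y + ((x * y) * z + x * (z * z)) =
      x * (y * y) + ((x * y) * z + (x * z) * y) + x * (z * z) := by abel
  have h5 : x * (y * y) + x * (z * y) + (x * (y * z) + x * (z * z)) =
      x * (y * y) + (x * (y * z) + x * (z * y)) + x * (z * z) := by abel
  rw [h4, h5] at h1
  exact add_left_cancel (add_right_cancel h1)

theorem jac (h : RightAlternative A) (h2 : ∀ x : A, x + x = 0) : LieAdm A := by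
  intro x y z
  have hn : ∀ a : A, -a = a := fun a => neg_eq_of_add_eq_zero_left (h2 a)
  have e1 := lin h x y z
  have e2 := lin h y z x
  have e3 := lin h z x y
  simp only [Existence.comm, sub_eq_add_neg, hn, mul_add, add_mul]
  have key : (x * y * z + x * z * y) + (x * (y * z) + x * (z * y)) +
      ((y * z * x + y * x * z) + (y * (z * x) + y * (x * z))) +
      ((z * x * y + z * y * x) + (z * (x * y) + z * (y * x))) = 0 := by
    rw [e1, e2, e3, h2 (x * (y * z) + x * (z * y)), h2 (y * (z * x) + y * (x * z)),
      h2 (z * (x * y) + z * (y * x))]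
    simp
  rw [← key]
  abel

theorem comm_anti (x y : A) : comm x y = - comm y x := by simp [Existence.comm]
theorem comm_add (x y z : A) : comm x (y + z) = comm x y + comm x z := by
  simp only [Existence.comm, mul_add, add_mul]; abel
theorem add_comm' (x y z : A) : comm (x + y) z = comm x z + comm y z := by
  simp only [Existence.comm, mul_add, add_mul]; abel
theorem neg_comm (x y : A) : comm (-x) y = - comm x y := by simp only [Existence.comm, neg_mul, mul_neg]; abel
theorem comm_neg (x y : A) : comm x (-y) = - comm x y := by simp only [Existence.comm, neg_mul, mul_neg]; abel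
theorem comm_zero (x : A) : comm 0 x = 0 := by simp [Existence.comm]

theorem malcev_of_lie (h : LieAdm A) : MalcevAdmissible A := by
  refine ⟨fun x => sub_self _, fun x y z => ?_⟩
  have h1 : comm (comm (comm x y) z + comm (comm y z) x + comm (comm z x) y) x = 0 := by
    rw [h x y z, comm_zero]
  rw [add_comm', add_comm'] at h1
  have h2 := h (comm z x) x y
  have e1 : comm (comm x y) (comm x z) = - comm (comm x y) (comm z x) := by
    rw [comm_anti x z, comm_neg]
  have e2 : comm (comm y (comm z x)) x = - comm (comm (comm z x) y) x := by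
    rw [comm_anti y, neg_comm]
  rw [e2] at h2
  rw [e1]
  have h3 : comm (comm (comm x y) z) x + comm (comm (comm y z) x) x =
      - comm (comm (comm z x) y) x := eq_neg_of_add_eq_zero_left h1
  rw [h3]
  have h4 : comm (comm (comm z x) x) y + comm (comm x y) (comm z x) +
      -comm (comm (comm z x) y) x = 0 := h2
  rw [neg_eq_iff_add_eq_zero]
  rw [← h4]; abel

end

/-- Right alternative algebras of characteristic two are Lie-admissible and Malcev-admissible. -/
theorem t_lie : S_LIE.{u, v} := by
  intro F A _ _ _ _ h
  have h2 : ∀ x : A, x + x = 0 := fun x => two_zero (F := F) x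
  exact ⟨jac h h2, malcev_of_lie (jac h h2)⟩

open Ex in
theorem t_right : S_RIGHT.{u} := by
  intro F ι κ _ _ _ _
  have h2 : (2 : F) = 0 := CharTwo.two_eq_zero
  refine ⟨fun x y => ?_, fun h => ?_⟩
  · refine ext' ?_ ?_ ?_ ?_
    · have e : (y * y).c = y.c * y.c := by
        rw [mul_c, pair_comm y.w y.a]
        linear_combination (pair y.a y.w) * h2
      rw [mul_a, mul_a, mul_a, e, mul_smul]
    · simp only [mul_w, mul_a, mul_s, Pi.smul_apply, smul_eq_mul, ← Finset.mul_sum, Ex.smul_mul',
        mul_add, mul_smul', mul_smul, smul_add]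
      rw [smul_comm (∑ k, y.s k) y.c x.a]
    · simp only [mul_c, mul_a, mul_w, pair_add, add_pair, smul_pair, pair_smul]
      have e1 : pair (x.a * y.a) y.a = pair x.a (y.a * y.a) := by
        unfold pair; rw [mul_assoc]
      rw [e1, pair_comm y.w y.a]
      linear_combination (y.c * pair x.a y.w - x.c * pair y.a y.w) * h2
    · have e : (y * y).c = y.c * y.c := by
        rw [mul_c, pair_comm y.w y.a]
        linear_combination (pair y.a y.w) * h2
      rw [mul_s, mul_s, mul_s, e, mul_smul]
  · obtain ⟨i⟩ := ‹Nonempty ι›
    classical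
    have h1 := congrArg Ex.w (h ⟨Finsupp.single i 1, 0, 0, 0⟩ ⟨0, 0, 1, 0⟩)
    simp only [mul_w, mul_a, mul_c, mul_s] at h1
    have := congrArg (fun f : ι →₀ F => f i) h1
    simp at this

end Pool.Agent.Y34.RA
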