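import Mathlib
import Pool.Agent.Results.MP_a52033_al.Existence

set_option autoImplicit false

/-!
# Simple right alternative algebras of characteristic two: statements
-/

namespace Pool.Agent.Y34.RA

open Pool.Agent.Results.MP_a52033_al.Existence

universe u v

/-- The commutator algebra is a Lie algebra (`[x,x] = 0` holds for every commutator). -/
def LieAdm (A : Type u) [NonUnitalNonAssocRing A] : Prop :=
  ∀ x y z : A, comm (comm x y) z + comm (comm y z) x + comm (comm z x) y = 0

/-- Simple algebra, for spaces in any universe: nonzero product, and no two-sided ideals besides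
`0` and `A`. -/
def IsSimpleAlg' (F : Type u) (A : Type v) [Field F] [NonUnitalNonAssocRing A] [Module F A] : Prop :=
  (∃ x y : A, x * y ≠ 0) ∧
  ∀ I : Submodule F A, (∀ x ∈ I, ∀ a : A, a * x ∈ I ∧ x * a ∈ I) → I = ⊥ ∨ I = ⊤

/-- The space of the examples: `(a, w, α, s)` with `a, w` finitely supported functions on `ι`,
`α` a scalar and `s` a function on `κ` (a finite type, with at most one element later on). -/
structure Ex (F ι κ : Type u) [Field F] where
  a : ι →₀ F
  w : ι →₀ F
  c : F
  s : κ → F

namespace Ex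

variable {F ι κ : Type u} [Field F]

@[ext] theorem ext' {x y : Ex F ι κ} (h1 : x.a = y.a) (h2 : x.w = y.w) (h3 : x.c = y.c)
    (h4 : x.s = y.s) : x = y := by
  cases x; cases y; simp_all

/-- The obvious bijection with a product. -/
def equivProd (F ι κ : Type u) [Field F] :
    Ex F ι κ ≃ (ι →₀ F) × (ι →₀ F) × F × (κ → F) where
  toFun x := (x.a, x.w, x.c, x.s)
  invFun p := ⟨p.1, p.2.1, p.2.2.1, p.2.2.2⟩
  left_inv _ := rfl
  right_inv _ := rfl

noncomputable instance : AddCommGroup (Ex F ι κ) := (equivProd F ι κ).addCommGroup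
noncomputable instance : Module F (Ex F ι κ) := (equivProd F ι κ).module F

/-- The pairing `∑ i, x i * y i`. -/
noncomputable def pair (x y : ι →₀ F) : F := (x * y).sum fun _ r => r

/-- The product
`(a, w, α, s) (a', w', α', s') = (α' a, a a' + (∑ s') a, ⟨a, w'⟩ + ⟨w, a'⟩ + α α', α' s)`. -/
noncomputable def mul [Fintype κ] (x y : Ex F ι κ) : Ex F ι κ where
  a := y.c • x.a
  w := x.a * y.a + (∑ k, y.s k) • x.a
  c := pair x.a y.w + pair x.w y.a + x.c * y.c
  s := y.c • x.s


@[simp] theorem add_a (x y : Ex F ι κ) : (x + y).a = x.a + y.a := rfl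
@[simp] theorem add_w (x y : Ex F ι κ) : (x + y).w = x.w + y.w := rfl
@[simp] theorem add_c (x y : Ex F ι κ) : (x + y).c = x.c + y.c := rfl
@[simp] theorem add_s (x y : Ex F ι κ) : (x + y).s = x.s + y.s := rfl
@[simp] theorem zero_a : (0 : Ex F ι κ).a = 0 := rfl
@[simp] theorem zero_w : (0 : Ex F ι κ).w = 0 := rfl
@[simp] theorem zero_c : (0 : Ex F ι κ).c = 0 := rfl
@[simp] theorem zero_s : (0 : Ex F ι κ).s = 0 := rfl
@[simp] theorem smul_a (r : F) (x : Ex F ι κ) : (r • x).a = r • x.a := rfl
@[simp] theorem smul_w (r : F) (x : Ex F ι κ) : (r • x).w = r • x.w := rfl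
@[simp] theorem smul_c (r : F) (x : Ex F ι κ) : (r • x).c = r * x.c := rfl
@[simp] theorem smul_s (r : F) (x : Ex F ι κ) : (r • x).s = r • x.s := rfl

theorem smul_mul' (r : F) (x y : ι →₀ F) : (r • x) * y = r • (x * y) := by
  ext i; simp [mul_assoc]

theorem mul_smul' (r : F) (x y : ι →₀ F) : x * (r • y) = r • (x * y) := by
  ext i; simp [mul_left_comm]

theorem pair_add (x y z : ι →₀ F) : pair x (y + z) = pair x y + pair x z := by
  classical
  unfold pair
  rw [mul_add, Finsupp.sum_add_index' (fun _ => rfl) (fun _ _ _ => rfl)]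

theorem add_pair (x y z : ι →₀ F) : pair (x + y) z = pair x z + pair y z := by
  classical
  unfold pair
  rw [add_mul, Finsupp.sum_add_index' (fun _ => rfl) (fun _ _ _ => rfl)]

theorem pair_comm (x y : ι →₀ F) : pair x y = pair y x := by
  unfold pair; rw [mul_comm]

theorem smul_pair (r : F) (x y : ι →₀ F) : pair (r • x) y = r * pair x y := by
  unfold pair
  rw [Finsupp.mul_sum]
  have h : (r • x) * y = r • (x * y) := by
    ext i; simp [mul_assoc]
  rw [h, Finsupp.sum_smul_index' (fun _ => rfl)]
  rfl

theorem pair_smul (r : F) (x y : ι →₀ F) : pair x (r • y) = r * pair x y := by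
  rw [pair_comm, smul_pair, pair_comm]

@[simp] theorem pair_zero (x : ι →₀ F) : pair x 0 = 0 := by simp [pair]
@[simp] theorem zero_pair (x : ι →₀ F) : pair 0 x = 0 := by simp [pair]

/-- The example as a (non-associative) ring. -/
noncomputable instance [Fintype κ] : NonUnitalNonAssocRing (Ex F ι κ) :=
  { (inferInstance : AddCommGroup (Ex F ι κ)) with
    mul := mul
    left_distrib := fun x y z => by
      refine ext' ?_ ?_ ?_ ?_
      · change (y + z).c • x.a = y.c • x.a + z.c • x.a
        simp [add_smul]
      · change x.a * (y + z).a + (∑ k, (y + z).s k) • x.a =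
          (x.a * y.a + (∑ k, y.s k) • x.a) + (x.a * z.a + (∑ k, z.s k) • x.a)
        simp [mul_add, Finset.sum_add_distrib, add_smul]; abel
      · change pair x.a (y + z).w + pair x.w (y + z).a + x.c * (y + z).c =
          (pair x.a y.w + pair x.w y.a + x.c * y.c) + (pair x.a z.w + pair x.w z.a + x.c * z.c)
        simp [pair_add]; ring
      · change (y + z).c • x.s = y.c • x.s + z.c • x.s
        simp [add_smul]
    right_distrib := fun x y z => by
      refine ext' ?_ ?_ ?_ ?_
      · change z.c • (x + y).a = z.c • x.a + z.c • y.a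
        simp
      · change (x + y).a * z.a + (∑ k, z.s k) • (x + y).a =
          (x.a * z.a + (∑ k, z.s k) • x.a) + (y.a * z.a + (∑ k, z.s k) • y.a)
        simp [add_mul]; abel
      · change pair (x + y).a z.w + pair (x + y).w z.a + (x + y).c * z.c =
          (pair x.a z.w + pair x.w z.a + x.c * z.c) + (pair y.a z.w + pair y.w z.a + y.c * z.c)
        simp [add_pair]; ring
      · change z.c • (x + y).s = z.c • x.s + z.c • y.s
        simp
    zero_mul := fun x => by
      refine ext' ?_ ?_ ?_ ?_
      · change x.c • (0 : ι →₀ F) = 0; simp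
      · change (0 : ι →₀ F) * x.a + (∑ k, x.s k) • (0 : ι →₀ F) = 0; simp
      · change pair 0 x.w + pair 0 x.a + 0 * x.c = 0; simp
      · change x.c • (0 : κ → F) = 0; simp
    mul_zero := fun x => by
      refine ext' ?_ ?_ ?_ ?_
      · change (0 : F) • x.a = 0; simp
      · change x.a * (0 : ι →₀ F) + (∑ k, (0 : κ → F) k) • x.a = 0; simp
      · change pair x.a 0 + pair x.w 0 + x.c * 0 = 0; simp
      · change (0 : F) • x.s = 0; simp }

section
variable [Fintype κ]
theorem mul_a (x y : Ex F ι κ) : (x * y).a = y.c • x.a := rfl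
theorem mul_w (x y : Ex F ι κ) : (x * y).w = x.a * y.a + (∑ k, y.s k) • x.a := rfl
theorem mul_c (x y : Ex F ι κ) : (x * y).c = pair x.a y.w + pair x.w y.a + x.c * y.c := rfl
theorem mul_s (x y : Ex F ι κ) : (x * y).s = y.c • x.s := rfl

instance : IsScalarTower F (Ex F ι κ) (Ex F ι κ) := ⟨fun r x y => by
  simp only [smul_eq_mul]
  refine ext' ?_ ?_ ?_ ?_
  · simp only [mul_a, smul_a]; rw [smul_comm]
  · simp only [mul_w, smul_a, smul_w, smul_add, smul_mul']
    rw [smul_comm]
  · simp only [mul_c, smul_a, smul_w, smul_c, smul_pair]; ring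
  · simp only [mul_s, smul_s]; rw [smul_comm]⟩

instance : SMulCommClass F (Ex F ι κ) (Ex F ι κ) := ⟨fun r x y => by
  simp only [smul_eq_mul]
  refine ext' ?_ ?_ ?_ ?_
  · simp only [mul_a, smul_a, smul_c, mul_smul]
  · simp only [mul_w, smul_a, smul_w, smul_add, mul_smul', smul_s, Pi.smul_apply, smul_eq_mul,
      ← Finset.mul_sum, mul_smul]
  · simp only [mul_c, smul_a, smul_w, smul_c, pair_smul]; ring
  · simp only [mul_s, smul_c, smul_s, mul_smul]⟩
end

end Ex

/-- Part 1 (general): right alternative algebras of characteristic two are Lie-admissible and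
Malcev-admissible. -/
def S_LIE : Prop := ∀ (F : Type u) (A : Type v) [Field F] [CharP F 2] [NonUnitalNonAssocRing A]
  [Module F A], RightAlternative A → LieAdm A ∧ MalcevAdmissible A

/-- Part 2a: the examples are right alternative in characteristic two and not alternative if `ι`
is not empty. -/
def S_RIGHT : Prop := ∀ (F ι κ : Type u) [Field F] [Fintype κ] [CharP F 2] [Nonempty ι],
  RightAlternative (Ex F ι κ) ∧ ¬ LeftAlternative (Ex F ι κ)

/-- Part 2b: the examples are simple if `ι` is not empty and `κ` has at most one element. -/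
def S_SIMPLE : Prop := ∀ (F ι κ : Type u) [Field F] [Fintype κ] [Nonempty ι] [Subsingleton κ],
  IsSimpleAlg F (Ex F ι κ)

/-- Part 2c: every cardinal `≥ 3` is the dimension of an example. -/
def S_RANK : Prop := ∀ (F : Type u) [Field F] (c : Cardinal.{u}), 3 ≤ c →
  ∃ (ι κ : Type u) (_ : Fintype κ), Nonempty ι ∧ Subsingleton κ ∧ Module.rank F (Ex F ι κ) = c

/-- Part 3: in dimension at most two every simple right alternative algebra of characteristic two
is commutative and associative (so it is alternative). -/
def S_SMALL : Prop := ∀ (F : Type u) (A : Type v) [Field F] [CharP F 2] [NonUnitalNonAssocRing A]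
  [Module F A] [IsScalarTower F A A] [SMulCommClass F A A], Module.Finite F A →
  Module.finrank F A ≤ 2 → IsSimpleAlg' F A → RightAlternative A → LeftAlternative A

end Pool.Agent.Y34.RA
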